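import Mathlib

/-!
# Inexactness of the convex relaxation for jerk-constrained speed planning

An explicit instance with `n = 57` for which a minimizer of the relaxation (R) violates the
positive jerk constraint in the middle.  Vectors `w ∈ ℝⁿ` are functions `ℕ → ℝ` of which only
the values at `1, …, n` are used.
-/

namespace Pool.Agent.Results.MP_6d6828_an.NotExact

open Finset

/-- `h / √x` with the convention `h / √0 = +∞` -/
noncomputable def quot (h x : ℝ) : EReal :=
  if x = 0 then ⊤ else ((h / Real.sqrt x : ℝ) : EReal)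

/-- `Δ w_i = (w_{i-1} - (2+ρ) w_i + w_{i+1}) / (h J)` -/
noncomputable def Delta (h ρ J : ℝ) (w : ℕ → ℝ) (i : ℕ) : ℝ :=
  (w (i - 1) - (2 + ρ) * w i + w (i + 1)) / (h * J)

/-- the convex set `C` -/
def InC (n : ℕ) (h A : ℝ) (wmax w : ℕ → ℝ) : Prop :=
  w 1 = 0 ∧ w n = 0 ∧ (∀ i, 2 ≤ i → i ≤ n - 1 → 0 ≤ w i ∧ w i ≤ wmax i) ∧
    ∀ i, 1 ≤ i → i ≤ n - 1 → |w (i + 1) - w i| ≤ h * A

/-- feasibility for the nonconvex problem (P) -/
def FeasP (n : ℕ) (h ρ A J : ℝ) (wmax w : ℕ → ℝ) : Prop :=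
  InC n h A wmax w ∧ ∀ i ∈ Icc 2 (n - 1), ((|Delta h ρ J w i| : ℝ) : EReal) ≤ quot h (w i)

/-- the objective of (P) -/
noncomputable def objP (n : ℕ) (h : ℝ) (w : ℕ → ℝ) : EReal :=
  ∑ i ∈ Icc 2 (n - 1), quot h (w i)

/-- feasibility for the relaxation (R) -/
def FeasR (n : ℕ) (h ρ A J : ℝ) (wmax w t : ℕ → ℝ) : Prop :=
  InC n h A wmax w ∧
    ∀ i ∈ Icc 2 (n - 1), quot h (w i) ≤ ((t i : ℝ) : EReal) ∧ |Delta h ρ J w i| ≤ t i

/-- the objective of (R) -/
noncomputable def objR (n : ℕ) (t : ℕ → ℝ) : EReal :=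
  ((∑ i ∈ Icc 2 (n - 1), t i : ℝ) : EReal)

/-- `w` is an optimal solution of (P) -/
def IsMinP (n : ℕ) (h ρ A J : ℝ) (wmax w : ℕ → ℝ) : Prop :=
  FeasP n h ρ A J wmax w ∧ ∀ w', FeasP n h ρ A J wmax w' → objP n h w ≤ objP n h w'

/-- `(w, t)` is an optimal solution of (R) -/
def IsMinR (n : ℕ) (h ρ A J : ℝ) (wmax w t : ℕ → ℝ) : Prop :=
  FeasR n h ρ A J wmax w t ∧
    ∀ w' t', FeasR n h ρ A J wmax w' t' → objR n t ≤ objR n t'

/-- (R) is exact: the optimal values agree, and the `w`-part of every minimizer of (R) is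
feasible and optimal for (P) -/
def Exact (n : ℕ) (h ρ A J : ℝ) (wmax : ℕ → ℝ) : Prop :=
  sInf {v | ∃ w, FeasP n h ρ A J wmax w ∧ v = objP n h w} =
      sInf {v | ∃ w t, FeasR n h ρ A J wmax w t ∧ v = objR n t} ∧
    ∀ w t, IsMinR n h ρ A J wmax w t → IsMinP n h ρ A J wmax w

/-- the profile as a function of the distance from the centre -/
noncomputable def g (k : ℕ) : ℝ :=
  if k ≤ 12 then 1 + k else if k ≤ 14 then 27 / 2 else 28 - k

/-- the profile, centred at `29` -/
noncomputable def E (i : ℕ) : ℝ := g ((i - 29) + (29 - i))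

lemma quot_le {h x t : ℝ} (hx : 0 ≤ x) (hq : quot h x ≤ (t : EReal)) :
    0 < x ∧ h / Real.sqrt x ≤ t := by
  unfold quot at hq
  split_ifs at hq with h0
  · exact absurd hq (by simp)
  · exact ⟨lt_of_le_of_ne hx (Ne.symm h0), by exact_mod_cast hq⟩

lemma tangent {w e : ℝ} (hw : 0 < w) (he : 0 < e) :
    1 / Real.sqrt e + (e - w) * (1 / (2 * e * Real.sqrt e)) ≤ 1 / Real.sqrt w := by
  set a := Real.sqrt w with ha
  set b := Real.sqrt e with hb
  have ha0 : 0 < a := Real.sqrt_pos.mpr hw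
  have hb0 : 0 < b := Real.sqrt_pos.mpr he
  have h1 : w = a ^ 2 := (Real.sq_sqrt hw.le).symm
  have h2 : e = b ^ 2 := (Real.sq_sqrt he.le).symm
  rw [h1, h2]
  have h3 : 1 / a - (1 / b + (b ^ 2 - a ^ 2) * (1 / (2 * b ^ 2 * b)))
      = (b - a) ^ 2 * (2 * b + a) / (2 * a * b ^ 3) := by
    field_simp
    ring
  have h4 : 0 ≤ (b - a) ^ 2 * (2 * b + a) / (2 * a * b ^ 3) := by positivity
  linarith

/-- the tangent inequality with a rational slope -/
lemma tangent' {h w e t s b r : ℝ} (hh : 0 < h) (hw : 0 < w) (he : 0 < e)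
    (ht : h / Real.sqrt w ≤ t) (hs : 0 < s) (hs2 : e ≤ s ^ 2) (hb : b ≤ 1 / (2 * e * s))
    (hr : 0 ≤ r) (hr' : r ≤ e - w) :
    h / Real.sqrt e + h * (b * r) ≤ t := by
  have h1 := tangent hw he
  have h2 : Real.sqrt e ≤ s := Real.sqrt_le_iff.mpr ⟨hs.le, hs2⟩
  have h3 : 0 < Real.sqrt e := Real.sqrt_pos.mpr he
  have h4 : b ≤ 1 / (2 * e * Real.sqrt e) := hb.trans (by
    apply one_div_le_one_div_of_le (by positivity)
    nlinarith)
  have h5 : (0 : ℝ) ≤ 1 / (2 * e * Real.sqrt e) := by positivity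
  have h6 : b * r ≤ (e - w) * (1 / (2 * e * Real.sqrt e)) := by
    calc b * r ≤ (1 / (2 * e * Real.sqrt e)) * r := by gcongr
      _ ≤ (1 / (2 * e * Real.sqrt e)) * (e - w) := by gcongr
      _ = _ := by ring
  have h7 : h * (1 / Real.sqrt e + b * r) ≤ h * (1 / Real.sqrt w) := by
    apply mul_le_mul_of_nonneg_left _ hh.le
    linarith
  have h8 : h * (1 / Real.sqrt w) = h / Real.sqrt w := by ring
  have h9 : h * (1 / Real.sqrt e + b * r) = h / Real.sqrt e + h * (b * r) := by ring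
  linarith

lemma small {h D e c : ℝ} (hh : 0 < h) (he : 0 < e) (h1 : |D| ≤ c)
    (h2 : c ^ 2 * e ≤ (19 / 10) ^ 2) : |D / (h * (19 / 10 / h ^ 2))| ≤ h / Real.sqrt e := by
  have h3 : 0 < Real.sqrt e := Real.sqrt_pos.mpr he
  have hc : 0 ≤ c := (abs_nonneg D).trans h1
  have h4 : D / (h * (19 / 10 / h ^ 2)) = h * (D / (19 / 10)) := by field_simp
  rw [h4, abs_mul, abs_of_pos hh, div_eq_mul_one_div h]
  apply mul_le_mul_of_nonneg_left _ hh.le
  rw [abs_div, abs_of_pos (by norm_num : (0 : ℝ) < 19 / 10), div_le_div_iff₀ (by norm_num) h3]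
  have h5 : c * Real.sqrt e ≤ 19 / 10 := by
    apply abs_le_of_sq_le_sq' _ (by norm_num) |>.2
    rw [mul_pow, Real.sq_sqrt he.le]
    exact h2
  nlinarith

/-- the `t`-part of the minimizer -/
noncomputable def T (h ρ : ℝ) (i : ℕ) : ℝ :=
  if i = 29 then h * ((2 - ρ) / (19 / 10)) else h / Real.sqrt (E i)

lemma E_pos {i : ℕ} (h1 : 2 ≤ i) (h2 : i ≤ 56) : 1 ≤ E i := by
  unfold E g
  split_ifs with h3 h4
  · have : (0 : ℝ) ≤ ((i - 29 + (29 - i) : ℕ) : ℝ) := Nat.cast_nonneg _
    linarith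
  · norm_num
  · have h5 : i - 29 + (29 - i) ≤ 27 := by omega
    have h6 : (((i - 29 + (29 - i) : ℕ)) : ℝ) ≤ 27 := by exact_mod_cast h5
    linarith

/-- second differences of the profile -/
lemma E_second {i : ℕ} (h1 : 2 ≤ i) (h2 : i ≤ 56) (h3 : i ≠ 29) :
    (E (i - 1) - 2 * E i + E (i + 1) = 0 ∧ E i ≤ 13) ∨
    (E (i - 1) - 2 * E i + E (i + 1) = -1 / 2 ∧ E i ≤ 27 / 2) := by
  interval_cases i <;> first | exact absurd rfl h3 | (norm_num [E, g])

lemma E_first {i : ℕ} (h1 : 1 ≤ i) (h2 : i ≤ 56) : |E (i + 1) - E i| ≤ 1 := by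
  interval_cases i <;> norm_num [E, g, abs_le]

lemma inC_E {h : ℝ} (hh : 0 < h) : InC 57 h (1 / h) E E := by
  refine ⟨by norm_num [E, g], by norm_num [E, g], fun i h1 h2 => ?_, fun i h1 h2 => ?_⟩
  · exact ⟨by linarith [E_pos h1 (by omega)], le_rfl⟩
  · have : h * (1 / h) = 1 := by field_simp
    rw [this]
    exact E_first h1 (by omega)

lemma feasR_E {h ρ : ℝ} (hh : 0 < h) (hρ : 0 < ρ) (hρ' : ρ ≤ 1 / 1000) :
    FeasR 57 h ρ (1 / h) (19 / 10 / h ^ 2) E E (T h ρ) := by
  refine ⟨inC_E hh, fun i hi => ?_⟩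
  rw [mem_Icc] at hi
  obtain ⟨h1, h2⟩ := hi
  have h2' : i ≤ 56 := by omega
  have hE := E_pos h1 h2'
  have hE0 : 0 < E i := by linarith
  by_cases h3 : i = 29
  · subst h3
    have e0 : E 29 = 1 := by norm_num [E, g]
    have e1 : E 28 = 2 := by norm_num [E, g]
    have e2 : E 30 = 2 := by norm_num [E, g]
    have hT : T h ρ 29 = h * ((2 - ρ) / (19 / 10)) := by simp [T]
    rw [hT]
    constructor
    · unfold quot
      rw [if_neg hE0.ne', e0]
      have : h / Real.sqrt 1 ≤ h * ((2 - ρ) / (19 / 10)) := by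
        rw [Real.sqrt_one, div_one]
        have : 1 ≤ (2 - ρ) / (19 / 10) := by
          rw [le_div_iff₀ (by norm_num)]; linarith
        nlinarith
      exact_mod_cast this
    · unfold Delta
      rw [show 29 - 1 = 28 from rfl, show 29 + 1 = 30 from rfl, e0, e1, e2]
      have h4 : (2 - (2 + ρ) * 1 + 2) / (h * (19 / 10 / h ^ 2)) = h * ((2 - ρ) / (19 / 10)) := by
        field_simp
        ring
      rw [h4, abs_of_nonneg]
      apply mul_nonneg hh.le
      apply div_nonneg _ (by norm_num)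
      linarith
  · have hT : T h ρ i = h / Real.sqrt (E i) := by simp [T, h3]
    rw [hT]
    constructor
    · unfold quot
      rw [if_neg hE0.ne']
    · unfold Delta
      rcases E_second h1 h2' h3 with ⟨h4, h5⟩ | ⟨h4, h5⟩
      · have h6 : E (i - 1) - (2 + ρ) * E i + E (i + 1) = -(ρ * E i) := by linarith
        rw [h6]
        apply small hh hE0 (c := 13 / 1000)
        · rw [abs_neg, abs_of_nonneg (by positivity)]
          nlinarith
        · nlinarith
      · have h6 : E (i - 1) - (2 + ρ) * E i + E (i + 1) = -(1 / 2 + ρ * E i) := by linarith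
        rw [h6]
        apply small hh hE0 (c := 5135 / 10000)
        · rw [abs_neg, abs_of_nonneg (by positivity)]
          nlinarith
        · nlinarith

/-- the lower bound for the objective of (R) -/
lemma minR {h ρ : ℝ} (hh : 0 < h) (hρ : 0 < ρ) {w t : ℕ → ℝ}
    (hw : FeasR 57 h ρ (1 / h) (19 / 10 / h ^ 2) E w t) :
    ∑ i ∈ Icc 2 56, T h ρ i ≤ ∑ i ∈ Icc 2 56, t i := by
  obtain ⟨⟨hw1, hwn, hwb, hws⟩, hwt⟩ := hw
  have hhA : h * (1 / h) = 1 := by field_simp
  rw [hhA] at hws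
  have hpos : ∀ i, 2 ≤ i → i ≤ 56 → 0 < w i ∧ h / Real.sqrt (w i) ≤ t i ∧ w i ≤ E i := by
    intro i h1 h2
    have h3 := (hwt i (by rw [mem_Icc]; omega)).1
    have h4 := hwb i h1 (by omega)
    obtain ⟨h5, h6⟩ := quot_le h4.1 h3
    exact ⟨h5, h6, h4.2⟩
  -- the ramps
  set p := 2 - w 30 with hp
  set q := 2 - w 28 with hq
  have hp0 : 0 ≤ p := by
    have := (hpos 30 (by norm_num) (by norm_num)).2.2
    have e2 : E 30 = 2 := by norm_num [E, g]
    linarith
  have hq0 : 0 ≤ q := by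
    have := (hpos 28 (by norm_num) (by norm_num)).2.2
    have e2 : E 28 = 2 := by norm_num [E, g]
    linarith
  have hright : ∀ k : ℕ, k ≤ 11 → w (30 + k) ≤ w 30 + k := by
    intro k
    induction k with
    | zero => intro _; simp
    | succ k ih =>
      intro hk
      have h1 := ih (by omega)
      have h2 := (abs_le.mp (hws (30 + k) (by omega) (by omega))).2
      push_cast
      rw [← add_assoc]
      linarith
  have hleft : ∀ k : ℕ, k ≤ 11 → w (28 - k) ≤ w 28 + k := by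
    intro k
    induction k with
    | zero => intro _; simp
    | succ k ih =>
      intro hk
      have h1 := ih (by omega)
      have h2 := (abs_le.mp (hws (28 - (k + 1)) (by omega) (by omega))).1
      rw [show 28 - (k + 1) + 1 = 28 - k by omega] at h2
      rw [Nat.cast_succ]
      linarith
  have key : ∀ (s b : ℝ) (k : ℕ), 1 ≤ k → k ≤ 12 → 0 < s → (1 + k : ℝ) ≤ s ^ 2 →
      b ≤ 1 / (2 * (1 + k) * s) →
      T h ρ (29 + k) + h * (b * p) ≤ t (29 + k) ∧ T h ρ (29 - k) + h * (b * q) ≤ t (29 - k) := by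
    intro s b k hk1 hk2 hs hs2 hb
    have hE1 : E (29 + k) = 1 + k := by
      unfold E g
      rw [if_pos (by omega)]
      congr 2
      omega
    have hE2 : E (29 - k) = 1 + k := by
      unfold E g
      rw [if_pos (by omega)]
      congr 2
      omega
    have hT1 : T h ρ (29 + k) = h / Real.sqrt (1 + k) := by
      unfold T; rw [if_neg (by omega), hE1]
    have hT2 : T h ρ (29 - k) = h / Real.sqrt (1 + k) := by
      unfold T; rw [if_neg (by omega), hE2]
    have hkk : ((k - 1 : ℕ) : ℝ) = (k : ℝ) - 1 := by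
      rw [Nat.cast_sub hk1]; simp
    have h1 := hpos (29 + k) (by omega) (by omega)
    have h2 := hpos (29 - k) (by omega) (by omega)
    have h3 := hright (k - 1) (by omega)
    have h4 := hleft (k - 1) (by omega)
    rw [show 30 + (k - 1) = 29 + k by omega, hkk] at h3
    rw [show 28 - (k - 1) = 29 - k by omega, hkk] at h4
    rw [hT1, hT2]
    constructor
    · exact tangent' hh h1.1 (by positivity) h1.2.1 hs hs2 hb hp0 (by linarith)
    · exact tangent' hh h2.1 (by positivity) h2.2.1 hs hs2 hb hq0 (by linarith)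
  have k1 := key (14143 / 10000) (1767 / 10000) 1 (by norm_num) (by norm_num) (by norm_num)
    (by norm_num) (by norm_num)
  have k2 := key (17321 / 10000) (962 / 10000) 2 (by norm_num) (by norm_num) (by norm_num)
    (by norm_num) (by norm_num)
  have k3 := key 2 (625 / 10000) 3 (by norm_num) (by norm_num) (by norm_num)
    (by norm_num) (by norm_num)
  have k4 := key (22361 / 10000) (447 / 10000) 4 (by norm_num) (by norm_num) (by norm_num)
    (by norm_num) (by norm_num)
  have k5 := key (24495 / 10000) (340 / 10000) 5 (by norm_num) (by norm_num) (by norm_num)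
    (by norm_num) (by norm_num)
  have k6 := key (26458 / 10000) (269 / 10000) 6 (by norm_num) (by norm_num) (by norm_num)
    (by norm_num) (by norm_num)
  have k7 := key (28285 / 10000) (220 / 10000) 7 (by norm_num) (by norm_num) (by norm_num)
    (by norm_num) (by norm_num)
  have k8 := key 3 (185 / 10000) 8 (by norm_num) (by norm_num) (by norm_num)
    (by norm_num) (by norm_num)
  have k9 := key (31623 / 10000) (158 / 10000) 9 (by norm_num) (by norm_num) (by norm_num)
    (by norm_num) (by norm_num)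
  have k10 := key (33167 / 10000) (137 / 10000) 10 (by norm_num) (by norm_num) (by norm_num)
    (by norm_num) (by norm_num)
  have k11 := key (34642 / 10000) (120 / 10000) 11 (by norm_num) (by norm_num) (by norm_num)
    (by norm_num) (by norm_num)
  have k12 := key (36056 / 10000) (106 / 10000) 12 (by norm_num) (by norm_num) (by norm_num)
    (by norm_num) (by norm_num)
  norm_num at k1 k2 k3 k4 k5 k6 k7 k8 k9 k10 k11 k12
  -- the centre
  have hc : T h ρ 29 - h * ((p + q) / (19 / 10)) ≤ t 29 := by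
    have h1 := (hwt 29 (by rw [mem_Icc]; omega)).2
    have h2 := (le_abs_self _).trans h1
    unfold Delta at h2
    rw [show 29 - 1 = 28 from rfl, show 29 + 1 = 30 from rfl] at h2
    have h3 : (w 28 - (2 + ρ) * w 29 + w 30) / (h * (19 / 10 / h ^ 2))
        = h * ((w 28 - (2 + ρ) * w 29 + w 30) / (19 / 10)) := by field_simp
    rw [h3] at h2
    have h4 := (hpos 29 (by norm_num) (by norm_num)).2.2
    have e0 : E 29 = 1 := by norm_num [E, g]
    rw [e0] at h4
    have hT : T h ρ 29 = h * ((2 - ρ) / (19 / 10)) := by simp [T]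
    rw [hT]
    have h5 : h * ((2 - ρ) / (19 / 10)) - h * ((p + q) / (19 / 10))
        ≤ h * ((w 28 - (2 + ρ) * w 29 + w 30) / (19 / 10)) := by
      rw [← mul_sub]
      apply mul_le_mul_of_nonneg_left _ hh.le
      rw [← sub_div]
      apply div_le_div_of_nonneg_right _ (by norm_num)
      nlinarith
    linarith
  have hother : ∀ i ∈ Icc 2 56, i ∉ Icc 17 41 → 0 ≤ t i - T h ρ i := by
    intro i hi hi'
    rw [mem_Icc] at hi hi'
    have hT : T h ρ i = h / Real.sqrt (E i) := by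
      unfold T; rw [if_neg (by omega)]
    obtain ⟨h1, h2, h3⟩ := hpos i hi.1 hi.2
    rw [hT]
    have h4 : h / Real.sqrt (E i) ≤ h / Real.sqrt (w i) := by
      apply div_le_div_of_nonneg_left hh.le (Real.sqrt_pos.mpr h1)
      exact Real.sqrt_le_sqrt h3
    linarith
  have hsub : (Icc 17 41 : Finset ℕ) ⊆ Icc 2 56 := by
    intro i hi
    rw [mem_Icc] at hi ⊢
    omega
  have h1 : ∑ i ∈ Icc 17 41, (t i - T h ρ i) ≤ ∑ i ∈ Icc 2 56, (t i - T h ρ i) :=
    sum_le_sum_of_subset_of_nonneg hsub hother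
  have h2 : 0 ≤ ∑ i ∈ Icc 17 41, (t i - T h ρ i) := by
    have hP : 0 ≤ h * p := by positivity
    have hQ : 0 ≤ h * q := by positivity
    simp only [show (41 : ℕ) = 17 + 24 by norm_num, sum_Icc_succ_top, Nat.reduceAdd,
      Nat.reduceLeDiff, Icc_self, sum_singleton]
    linarith
  have h3 : ∑ i ∈ Icc 2 56, (t i - T h ρ i) = ∑ i ∈ Icc 2 56, t i - ∑ i ∈ Icc 2 56, T h ρ i :=
    sum_sub_distrib _ _
  linarith

/-- **Theorem.** For every step `h > 0` and every `ρ ∈ (0, 1/1000]` there is an instance (with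
`n = 57`) and a minimizer `(w, t)` of the relaxation (R) such that `w` violates a positive jerk
constraint of (P); in particular (R) is not exact. -/
theorem result (h ρ : ℝ) (hh : 0 < h) (hρ : 0 < ρ) (hρ' : ρ ≤ 1 / 1000) :
    ∃ n : ℕ, 3 ≤ n ∧ ∃ A J : ℝ, 0 < A ∧ 0 < J ∧ ∃ wmax : ℕ → ℝ,
      (∀ i, 2 ≤ i → i ≤ n - 1 → 0 < wmax i) ∧
      (∃ w t : ℕ → ℝ, IsMinR n h ρ A J wmax w t ∧
        ∃ i ∈ Icc 2 (n - 1), 0 < w i ∧ h / Real.sqrt (w i) < Delta h ρ J w i) ∧
      ¬ Exact n h ρ A J wmax := by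
  have hmin : IsMinR 57 h ρ (1 / h) (19 / 10 / h ^ 2) E E (T h ρ) := by
    refine ⟨feasR_E hh hρ hρ', fun w' t' hw' => ?_⟩
    unfold objR
    exact_mod_cast minR hh hρ hw'
  have hviol : 0 < E 29 ∧ h / Real.sqrt (E 29) < Delta h ρ (19 / 10 / h ^ 2) E 29 := by
    have e0 : E 29 = 1 := by norm_num [E, g]
    have e1 : E 28 = 2 := by norm_num [E, g]
    have e2 : E 30 = 2 := by norm_num [E, g]
    refine ⟨by rw [e0]; norm_num, ?_⟩
    unfold Delta
    rw [show 29 - 1 = 28 from rfl, show 29 + 1 = 30 from rfl, e0, e1, e2]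
    have h4 : (2 - (2 + ρ) * 1 + 2) / (h * (19 / 10 / h ^ 2)) = h * ((2 - ρ) / (19 / 10)) := by
      field_simp
      ring
    rw [h4, Real.sqrt_one, div_one]
    have : 1 < (2 - ρ) / (19 / 10) := by
      rw [lt_div_iff₀ (by norm_num)]; linarith
    nlinarith
  refine ⟨57, by norm_num, 1 / h, 19 / 10 / h ^ 2, by positivity, by positivity, E,
    fun i h1 h2 => by linarith [E_pos h1 (by omega)],
    ⟨E, T h ρ, hmin, 29, by rw [mem_Icc]; omega, hviol⟩, ?_⟩
  rintro ⟨-, hex⟩
  have h1 := (hex _ _ hmin).1.2 29 (by rw [mem_Icc]; omega)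
  unfold quot at h1
  rw [if_neg hviol.1.ne'] at h1
  have h2 : |Delta h ρ (19 / 10 / h ^ 2) E 29| ≤ h / Real.sqrt (E 29) := by exact_mod_cast h1
  have h3 := (le_abs_self _).trans h2
  linarith [hviol.2]

end Pool.Agent.Results.MP_6d6828_an.NotExact
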